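import Pool.Agent.K3h53.UG.Stm4
import Pool.Agent.K3h7.UG.Dir3

/-! UG project (helper53, MP_209724_lc), brick DIR4. -/

set_option autoImplicit false

namespace Pool.Agent.K3h35.UG

open MvPolynomial Filter Topology Metric Pool.Agent.K3h53.UG

variable {s : ℕ}

theorem contDiff_ins (k : Fin (s + 1)) (i : Fin (s + 1)) :
    ContDiff ℂ 1 fun z : (Fin s → ℂ) × ℂ => (k.insertNth (0 : ℂ) z.1 : Fin (s + 1) → ℂ) i := by
  rcases Fin.eq_self_or_eq_succAbove k i with rfl | ⟨j, rfl⟩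
  · simp only [Fin.insertNth_apply_same]
    exact contDiff_const
  · simp only [Fin.insertNth_apply_succAbove]
    exact (contDiff_apply ℂ ℂ j).comp contDiff_fst

theorem contDiff_xp (k : Fin (s + 1)) (u : Fin (s + 1) → ℝ) (i : Fin (s + 1)) :
    ContDiff ℂ 1 fun z : (Fin s → ℂ) × ℂ => xp k u z.1 z.2 i := by
  unfold xp
  exact (contDiff_ins k i).add (contDiff_const.mul contDiff_snd)

theorem contDiff_eval (k : Fin (s + 1)) (u : Fin (s + 1) → ℝ) (q : MvPolynomial (Fin (s + 1)) ℂ) :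
    ContDiff ℂ 1 fun z : (Fin s → ℂ) × ℂ => eval (xp k u z.1 z.2) q := by
  induction q using MvPolynomial.induction_on with
  | C a => simpa using contDiff_const
  | add p q hp hq => simpa using hp.add hq
  | mul_X p i hp => simpa using hp.mul (contDiff_xp k u i)

theorem hasDeriv_eval (k : Fin (s + 1)) (u : Fin (s + 1) → ℝ) (l : Fin s → ℂ) (θ : ℂ)
    (q : MvPolynomial (Fin (s + 1)) ℂ) :
    HasDerivAt (fun t : ℂ => eval (xp k u l t) q)
      (eval (xp k u l θ) (dd (fun i => ((u i : ℝ) : ℂ)) q)) θ := by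
  induction q using MvPolynomial.induction_on with
  | C a =>
    have e : dd (fun i => ((u i : ℝ) : ℂ)) (C a : MvPolynomial (Fin (s + 1)) ℂ) = 0 := by
      simp [dd]
    rw [e]
    simpa using hasDerivAt_const θ a
  | add p q hp hq =>
    have e : dd (fun i => ((u i : ℝ) : ℂ)) (p + q) =
        dd (fun i => ((u i : ℝ) : ℂ)) p + dd (fun i => ((u i : ℝ) : ℂ)) q := by
      simp only [dd, map_add, mul_add, Finset.sum_add_distrib]
    rw [e, map_add]
    simpa using hp.fun_add hq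
  | mul_X p i hp =>
    have e2 : dd (fun j => ((u j : ℝ) : ℂ)) (p * X i) =
        dd (fun j => ((u j : ℝ) : ℂ)) p * X i + p * C (u i : ℂ) := by
      unfold dd
      simp only [pderiv_mul, mul_add, Finset.sum_add_distrib]
      congr 1
      · rw [Finset.sum_mul]
        exact Finset.sum_congr rfl fun j _ => by ring
      · rw [Finset.sum_eq_single i]
        · rw [pderiv_X_self]; ring
        · intro j _ hj
          rw [pderiv_X_of_ne (Ne.symm hj)]; ring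
        · intro h
          exact absurd (Finset.mem_univ _) h
    rw [e2, map_add, map_mul, map_mul, eval_X, eval_C]
    have h1 : HasDerivAt (fun t : ℂ => xp k u l t i) ((u i : ℝ) : ℂ) θ := by
      unfold xp
      simpa using ((hasDerivAt_id θ).const_mul ((u i : ℝ) : ℂ)).const_add
        ((k.insertNth (0 : ℂ) l : Fin (s + 1) → ℂ) i)
    have h2 := hp.fun_mul h1
    simpa using h2

theorem xp_smul (k : Fin (s + 1)) (u : Fin (s + 1) → ℝ) (l : Fin s → ℂ) (θ c : ℂ) :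
    xp k u (fun j => c * l j) (c * θ) = fun i => c * xp k u l θ i := by
  funext i
  unfold xp
  rcases Fin.eq_self_or_eq_succAbove k i with rfl | ⟨j, rfl⟩
  · simp only [Fin.insertNth_apply_same]
    ring
  · simp only [Fin.insertNth_apply_succAbove]
    ring

/-- a nonzero polynomial is not zero at all real points close to a given one -/
theorem exists_real_near {p : MvPolynomial (Fin s) ℂ} (hp : p ≠ 0) (a : Fin s → ℝ) {δ : ℝ}
    (hδ : 0 < δ) :
    ∃ b : Fin s → ℝ, (∀ j, |b j - a j| < δ) ∧ eval (fun j => (b j : ℂ)) p ≠ 0 := by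
  by_contra h
  push Not at h
  apply hp
  refine MvPolynomial.funext_set
    (fun j : Fin s => (fun x : ℝ => (x : ℂ)) '' Set.Ioo (a j - δ) (a j + δ))
    (fun j => (Set.Ioo_infinite (by linarith)).image Complex.ofReal_injective.injOn) fun x hx => ?_
  have h1 : ∀ j, ∃ b : ℝ, |b - a j| < δ ∧ (b : ℂ) = x j := by
    intro j
    obtain ⟨b, hb, hb2⟩ := hx j (Set.mem_univ _)
    exact ⟨b, abs_lt.2 ⟨by linarith [hb.1], by linarith [hb.2]⟩, hb2⟩
  choose b hb hb2 using h1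
  have e : x = fun j => (b j : ℂ) := funext fun j => (hb2 j).symm
  rw [e, h b hb, map_zero]

theorem t_DIR4 : S_DIR4 := by
  intro s d q k u hq huk hN Q e hQ hQh
  obtain ⟨ξ, η₀, hη₀, hz, hdz⟩ := hN
  -- the point with `k`-th coordinate zero
  set ρ₀ : Fin s → ℝ := fun j => ξ (k.succAbove j) - ξ k * u (k.succAbove j) with hρ₀
  set η₁ : ℂ := η₀ + (ξ k : ℂ) with hη₁
  have hpt : (fun i => ((ξ i : ℝ) : ℂ) + ((u i : ℝ) : ℂ) * η₀) =
      xp k u (fun j => ((ρ₀ j : ℝ) : ℂ)) η₁ := by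
    funext i
    unfold xp
    rcases Fin.eq_self_or_eq_succAbove k i with rfl | ⟨j, rfl⟩
    · simp only [Fin.insertNth_apply_same, huk, hη₁]
      push_cast
      ring
    · simp only [Fin.insertNth_apply_succAbove, hη₁, hρ₀]
      push_cast
      ring
  rw [hpt] at hz hdz
  have hη₁i : η₁.im ≠ 0 := by
    rw [hη₁, Complex.add_im, Complex.ofReal_im, add_zero]
    exact hη₀
  -- the map
  set g : (Fin s → ℂ) × ℂ → ℂ := fun z => eval (xp k u z.1 z.2) q with hg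
  have hgc : ContDiff ℂ 1 g := contDiff_eval k u q
  set z₀ : (Fin s → ℂ) × ℂ := (fun j => ((ρ₀ j : ℝ) : ℂ), η₁) with hz₀
  set G : (Fin s → ℂ) × ℂ →L[ℂ] ℂ := fderiv ℂ g z₀ with hG
  have hgs : HasStrictFDerivAt g G z₀ := hgc.contDiffAt.hasStrictFDerivAt one_ne_zero
  have hG1 : G (0, 1) = eval (xp k u z₀.1 z₀.2) (dd (fun i => ((u i : ℝ) : ℂ)) q) := by
    have h1 : HasDerivAt (fun t : ℂ => ((z₀.1, t) : (Fin s → ℂ) × ℂ)) ((0, 1) :
        (Fin s → ℂ) × ℂ) z₀.2 := (hasDerivAt_const z₀.2 z₀.1).prodMk (hasDerivAt_id z₀.2)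
    have h2 := (hgs.hasFDerivAt (x := (z₀.1, z₀.2))).comp_hasDerivAt z₀.2 h1
    exact h2.unique (hasDeriv_eval k u z₀.1 z₀.2 q)
  have hG1' : G (0, 1) ≠ 0 := by rw [hG1]; exact hdz
  have hΦ : HasStrictFDerivAt (fun z : (Fin s → ℂ) × ℂ => (z.1, g z))
      ((ContinuousLinearMap.fst ℂ (Fin s → ℂ) ℂ).prod G) z₀ :=
    hasStrictFDerivAt_fst.prodMk hgs
  have hsurj : ((ContinuousLinearMap.fst ℂ (Fin s → ℂ) ℂ).prod G).range = ⊤ := by
    rw [LinearMap.range_eq_top]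
    rintro ⟨a, b⟩
    refine ⟨(a, (b - G (a, 0)) / G (0, 1)), ?_⟩
    have h1 : ((a, (b - G (a, 0)) / G (0, 1)) : (Fin s → ℂ) × ℂ) =
        (a, 0) + ((b - G (a, 0)) / G (0, 1)) • ((0, 1) : (Fin s → ℂ) × ℂ) := by
      ext <;> simp
    have h2 : G (a, (b - G (a, 0)) / G (0, 1)) = b := by
      rw [h1, map_add, map_smul, smul_eq_mul, div_mul_cancel₀ _ hG1']
      ring
    exact Prod.ext rfl h2
  have hmap := hΦ.map_nhds_eq_of_surj hsurj
  -- the neighbourhood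
  have hcD : Continuous fun z : (Fin s → ℂ) × ℂ =>
      eval (xp k u z.1 z.2) (dd (fun i => ((u i : ℝ) : ℂ)) q) :=
    (contDiff_eval k u _).continuous
  have hNb : {z : (Fin s → ℂ) × ℂ | z.2.im ≠ 0 ∧
      eval (xp k u z.1 z.2) (dd (fun i => ((u i : ℝ) : ℂ)) q) ≠ 0} ∈ 𝓝 z₀ := by
    refine ((isOpen_ne_fun (Complex.continuous_im.comp continuous_snd) continuous_const).inter
      (isOpen_ne_fun hcD continuous_const)).mem_nhds ⟨hη₁i, hdz⟩
  have hIm : (fun z : (Fin s → ℂ) × ℂ => (z.1, g z)) '' {z : (Fin s → ℂ) × ℂ | z.2.im ≠ 0 ∧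
      eval (xp k u z.1 z.2) (dd (fun i => ((u i : ℝ) : ℂ)) q) ≠ 0} ∈ 𝓝 (z₀.1, g z₀) := by
    rw [← hmap]
    exact image_mem_map hNb
  obtain ⟨δ, hδ, hball⟩ := Metric.mem_nhds_iff.1 hIm
  obtain ⟨ρ, hρ, hQρ⟩ := exists_real_near hQ ρ₀ hδ
  have hmem : (((fun j => ((ρ j : ℝ) : ℂ)), 0) : (Fin s → ℂ) × ℂ) ∈ ball (z₀.1, g z₀) δ := by
    rw [mem_ball, Prod.dist_eq, max_lt_iff]
    refine ⟨?_, ?_⟩
    · rw [dist_pi_lt_iff hδ]
      intro j
      rw [dist_eq_norm]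
      have : (((ρ j : ℝ) : ℂ)) - z₀.1 j = ((ρ j - ρ₀ j : ℝ) : ℂ) := by
        rw [hz₀]; push_cast; ring
      rw [this, Complex.norm_real, Real.norm_eq_abs]
      exact hρ j
    · have : g z₀ = 0 := hz
      rw [this, dist_self]
      exact hδ
  obtain ⟨⟨l, η⟩, ⟨hη, hD⟩, hl⟩ := hball hmem
  simp only [Prod.mk.injEq] at hl
  obtain ⟨rfl, hg0⟩ := hl
  simp only at hη hD
  have hg0' : eval (xp k u (fun j => ((ρ j : ℝ) : ℂ)) η) q = 0 := hg0
  -- the scaling
  set c : ℂ := Complex.I * ((-(η.im)⁻¹ : ℝ) : ℂ) with hc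
  have hc0 : c ≠ 0 := by
    rw [hc]
    refine mul_ne_zero Complex.I_ne_zero ?_
    exact_mod_cast neg_ne_zero.2 (inv_ne_zero hη)
  refine ⟨fun j => c * ((ρ j : ℝ) : ℂ), c * η, fun j => ?_, ?_, ?_, ?_, ?_⟩
  · show (c * ((ρ j : ℝ) : ℂ)).re = 0
    rw [hc, mul_assoc, ← Complex.ofReal_mul]
    simp
  · rw [hc, mul_assoc]
    simp only [Complex.mul_re, Complex.I_re, Complex.I_im, zero_mul, one_mul, zero_sub,
      Complex.im_ofReal_mul]
    field_simp
  · rw [xp_smul, Pool.Agent.K3h7.UG.eval_scale hq, hg0', mul_zero]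
  · rw [xp_smul, Pool.Agent.K3h7.UG.eval_scale (Pool.Agent.K3h7.UG.homog_dd hq _)]
    exact mul_ne_zero (pow_ne_zero _ hc0) hD
  · rw [Pool.Agent.K3h7.UG.eval_scale hQh]
    exact mul_ne_zero (pow_ne_zero _ hc0) hQρ

end Pool.Agent.K3h35.UG
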